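import Mathlib

set_option autoImplicit false

namespace Pool.Agent.H.MP_997199_an

open Set Filter Topology
open scoped ENNReal

variable {X : Type} [NormedAddCommGroup X] [NormedSpace ℝ X]

def IsWC (L : Set X) : Prop := IsCompact (toWeakSpace ℝ X '' L)

def MackeyCompact (H : Set (StrongDual ℝ X)) : Prop :=
  IsCompact ((fun μ : StrongDual ℝ X => UniformOnFun.ofFun {L : Set X | IsWC L} (μ : X → ℝ)) '' H)

noncomputable def chi0 (A : Set (StrongDual ℝ X)) (L : Set X) : ℝ≥0∞ :=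
  ⨅ F ∈ {F | F ⊆ A ∧ F.Finite}, ⨆ a ∈ A, ⨅ b ∈ F, ⨆ x ∈ L, edist (a x) (b x)

noncomputable def chim (A : Set (StrongDual ℝ X)) : ℝ≥0∞ :=
  ⨆ L ∈ {L : Set X | L ⊆ Metric.closedBall 0 1 ∧ IsWC L}, chi0 A L

noncomputable def omegam (A : Set (StrongDual ℝ X)) : ℝ≥0∞ :=
  ⨅ H ∈ {H : Set (StrongDual ℝ X) | MackeyCompact H}, ⨆ a ∈ A, Metric.infEDist a H

def RDPP (X : Type) [NormedAddCommGroup X] [NormedSpace ℝ X] : Prop :=
  ∀ (E : Type) [NormedAddCommGroup E] [NormedSpace ℝ E] [CompleteSpace E] (T : X →L[ℝ] E),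
    (∀ (x : ℕ → X) (y : X), (∀ φ : StrongDual ℝ X, Tendsto (fun n => φ (x n)) atTop (𝓝 (φ y))) →
      Tendsto (fun n => T (x n)) atTop (𝓝 (T y))) →
    ∃ W : Set E, IsWC W ∧ T '' Metric.closedBall 0 1 ⊆ W

end Pool.Agent.H.MP_997199_an
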