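import Mathlib
import Pool.Agent.H.MP_997199_an.Defs

set_option autoImplicit false

namespace Pool.Agent.H.MP_997199_an

open Set Filter Topology
open scoped ENNReal Classical

abbrev K : Type := ℕ → Bool

abbrev CK : Type := C(K, ℝ)

theorem control {I : Type} (ν : I → Set K → ℝ)
    (h0 : ∀ i, ν i ∅ ≤ 0)
    (hs : ∀ i a b c, IsClopen a → IsClopen b → IsClopen c → a ⊆ b ∪ c → ν i a ≤ ν i b + ν i c)
    (hx : ∀ D : ℕ → Set K, (∀ j, IsClopen (D j)) → Monotone D → ∀ η, 0 < η →
      ∀ᶠ j in atTop, ∀ i, ν i (D (j + 1) \ D j) ≤ η) {ε : ℝ} (hε : 0 < ε) :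
    ∃ (S : Finset I) (δ : ℝ), 0 < δ ∧ ∀ a, IsClopen a → (∀ i ∈ S, ν i a ≤ δ) → ∀ i, ν i a ≤ ε := by
  by_contra hc
  push Not at hc
  have hm : ∀ i a b, IsClopen a → IsClopen b → a ⊆ b → ν i a ≤ ν i b := fun i a b ha hb h => by
    linarith [hs i a b ∅ ha hb isClopen_empty (by simpa), h0 i]
  choose a0 h1 h2 i0 h3 using fun (S : Finset I) (k : ℕ) => hc S (ε / 4 / 2 ^ (k + 1)) (by positivity)
  let S : ℕ → Finset I := fun k => Nat.rec ∅ (fun k S => insert (i0 S k) S) k
  have hS : Monotone S := monotone_nat_of_le_succ fun k => Finset.subset_insert _ _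
  let a : ℕ → Set K := fun k => a0 (S k) k
  let ι : ℕ → I := fun k => i0 (S k) k
  have ha : ∀ k, IsClopen (a k) := fun k => h1 _ _
  have h4 : ∀ j k, j < k → ν (ι j) (a k) ≤ ε / 4 / 2 ^ (k + 1) := fun j k h =>
    h2 _ _ _ (hS h (Finset.mem_insert_self _ _))
  let c : ℕ → ℕ → Set K := fun n m => ⋃ k ∈ Finset.Ico n m, a k
  have hc : ∀ n m, IsClopen (c n m) := fun n m => isClopen_biUnion_finset fun k _ => ha k
  have hac : ∀ n m k, n ≤ k → k < m → a k ⊆ c n m := fun n m k h h' =>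
    subset_biUnion_of_mem (u := a) (Finset.mem_coe.2 (Finset.mem_Ico.2 ⟨h, h'⟩))
  have h5 : ∀ n, ∃ m, ∀ k, n ≤ k → ∀ i, ν i (a k \ c n m) ≤ ε / 4 / 2 ^ (n + 1) := by
    intro n
    by_contra h
    push Not at h
    choose k h6 i h7 using h
    have h8 : ∀ m, m ≤ k m := fun m => not_lt.1 fun h => by
      have := h7 m
      rw [diff_eq_empty.2 (hac n m _ (h6 m) h)] at this
      linarith [h0 (i m), show 0 < ε / 4 / 2 ^ (n + 1) by positivity]
    let m : ℕ → ℕ := fun j => (fun m => k m + 1)^[j] 0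
    have e : ∀ j, m (j + 1) = k (m j) + 1 := fun j => Function.iterate_succ_apply' _ _ _
    obtain ⟨j, hj⟩ := (hx (fun j => c n (m j)) (fun j => hc _ _) (monotone_nat_of_le_succ fun j =>
      biUnion_subset_biUnion_left (Finset.Ico_subset_Ico_right (by have := h8 (m j); rw [e]; omega)))
      _ (show 0 < ε / 4 / 2 ^ (n + 1) by positivity)).exists
    exact absurd ((hm _ _ _ ((ha _).diff (hc _ _)) ((hc _ _).diff (hc _ _)) (diff_subset_diff_left
      (hac n _ _ (h6 _) (by rw [e]; omega)))).trans (hj (i (m j)))) (not_le.2 (h7 _))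
  choose m h5 using h5
  have h6 : ∀ j n, j < n → ∀ l, ν (ι j) (c n (n + l)) ≤ ε / 4 / 2 ^ n - ε / 4 / 2 ^ (n + l) := by
    intro j n h l
    induction l with
    | zero => simpa [c] using h0 _
    | succ l ih =>
      have := hs (ι j) (c n (n + (l + 1))) (c n (n + l)) (a (n + l)) (hc _ _) (hc _ _) (ha _)
        (iUnion₂_subset fun k hk => by
          rw [Finset.mem_Ico] at hk
          rcases Nat.lt_succ_iff_lt_or_eq.1 hk.2 with h | rfl
          · exact (hac n _ k hk.1 h).trans subset_union_left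
          · exact subset_union_right)
      have h7 := h4 j (n + l) (by omega)
      rw [← add_assoc, pow_succ, ← div_div] at *
      linarith
  let D : ℕ → Set K := fun n => ⋃ k ∈ Finset.range n, (c k (m k))ᶜ
  have hD : ∀ n, IsClopen (D n) := fun n => isClopen_biUnion_finset fun k _ => (hc _ _).compl
  have h7 : ∀ k n, n ≤ k + 1 → ∀ i, ν i (a k ∩ D n) ≤ ε / 4 - ε / 4 / 2 ^ n := by
    intro k n hn i
    induction n with
    | zero => simpa [D] using h0 _
    | succ n ih =>
      have := hs i (a k ∩ D (n + 1)) (a k ∩ D n) (a k \ c n (m n)) ((ha _).inter (hD _))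
        ((ha _).inter (hD _)) ((ha _).diff (hc _ _)) (by
          simp only [D, Finset.range_add_one, Finset.set_biUnion_insert]
          rintro x ⟨h8, h9 | h9⟩
          exacts [Or.inr ⟨h8, h9⟩, Or.inl ⟨h8, h9⟩])
      have h8 := h5 n k (by omega) i
      have h9 := ih (by omega)
      rw [pow_succ, ← div_div] at *
      linarith
  obtain ⟨k, hk⟩ := (hx (fun n => D (n + 1)) (fun n => hD _) (monotone_nat_of_le_succ fun j =>
    biUnion_subset_biUnion_left (Finset.range_mono (by omega))) _ (show 0 < ε / 4 by positivity)).exists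
  have e1 := hs (ι k) (a k) (a k ∩ D (k + 1)) (D (k + 1))ᶜ (ha _) ((ha _).inter (hD _)) (hD _).compl
    fun x hx => by by_cases h : x ∈ D (k + 1); exacts [Or.inl ⟨hx, h⟩, Or.inr h]
  have e2 := hs (ι k) (D (k + 1))ᶜ (D (k + 1 + 1) \ D (k + 1)) (c (k + 1) (k + 1 + m (k + 1)))
    (hD _).compl ((hD _).diff (hD _)) (hc _ _) fun x hx => by
      by_cases h : x ∈ c (k + 1) (m (k + 1))
      · exact Or.inr (biUnion_subset_biUnion_left (Finset.Ico_subset_Ico_right (by omega)) h)
      · exact Or.inl ⟨mem_biUnion (Finset.mem_coe.2 (Finset.self_mem_range_succ _)) h, hx⟩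
  have e3 := h6 k (k + 1) (by omega) (m (k + 1))
  have e4 := h7 k (k + 1) le_rfl (ι k)
  have e5 : ε < ν (ι k) (a k) := h3 _ _
  have e6 : ε / 4 / 2 ^ (k + 1) ≤ ε / 4 := div_le_self (by positivity) (one_le_pow₀ one_le_two)
  have e7 : 0 ≤ ε / 4 / 2 ^ (k + 1 + m (k + 1)) := by positivity
  have e8 : 0 ≤ ε / 4 / 2 ^ (k + 1) := by positivity
  linarith [hk (ι k)]

noncomputable def V (μ : StrongDual ℝ CK) (h : CK) : ℝ :=
  sSup {t | ∃ f : CK, (∀ x, |f x| ≤ h x) ∧ μ f = t}

theorem le_V0 (μ : StrongDual ℝ CK) {f h : CK} (hf : ∀ x, |f x| ≤ h x) : μ f ≤ V μ h := by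
  refine le_csSup ⟨‖μ‖ * ‖h‖, ?_⟩ ⟨f, hf, rfl⟩
  rintro _ ⟨g, hg, rfl⟩
  exact (le_abs_self _).trans (μ.le_opNorm_of_le ((ContinuousMap.norm_le _ (norm_nonneg _)).2
    fun x => (hg x).trans ((le_abs_self _).trans (h.norm_coe_le_norm x))))

theorem le_V (μ : StrongDual ℝ CK) {f h : CK} (hf : ∀ x, |f x| ≤ h x) : |μ f| ≤ V μ h :=
  abs_le.2 ⟨by simpa [neg_le] using le_V0 μ (f := -f) (by simpa using hf), le_V0 μ hf⟩

theorem V_le {μ : StrongDual ℝ CK} {h : CK} {t : ℝ} (h0 : ∀ x, 0 ≤ h x)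
    (H : ∀ f : CK, (∀ x, |f x| ≤ h x) → μ f ≤ t) : V μ h ≤ t :=
  csSup_le ⟨_, 0, by simpa using h0, rfl⟩ (by rintro _ ⟨f, hf, rfl⟩; exact H f hf)

theorem V_nonneg (μ : StrongDual ℝ CK) {h : CK} (h0 : ∀ x, 0 ≤ h x) : 0 ≤ V μ h :=
  (abs_nonneg _).trans (le_V μ (f := 0) (by simpa using h0))

theorem V_sub (μ : StrongDual ℝ CK) {h h1 h2 : CK} (h0 : ∀ x, 0 ≤ h x) (a1 : ∀ x, 0 ≤ h1 x)
    (a2 : ∀ x, 0 ≤ h2 x) (H : ∀ x, h x ≤ h1 x + h2 x) : V μ h ≤ V μ h1 + V μ h2 := by
  refine V_le h0 fun f hf => ?_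
  rw [← add_sub_cancel ((f ⊓ h1) ⊔ (-h1)) f, map_add]
  refine add_le_add (le_V0 μ fun x => ?_) (le_V0 μ fun x => ?_) <;>
    simp only [ContinuousMap.sup_apply, ContinuousMap.inf_apply, ContinuousMap.neg_apply,
      ContinuousMap.sub_apply] <;>
    have := abs_le.1 ((hf x).trans (H x)) <;> have := a1 x <;> have := a2 x <;> grind

theorem V_super (μ : StrongDual ℝ CK) {h1 h2 : CK} (a1 : ∀ x, 0 ≤ h1 x) (a2 : ∀ x, 0 ≤ h2 x) :
    V μ h1 + V μ h2 ≤ V μ (h1 + h2) := by
  rw [← le_sub_iff_add_le]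
  refine V_le a1 fun f hf => ?_
  rw [le_sub_comm]
  refine V_le a2 fun g hg => ?_
  rw [le_sub_iff_add_le, ← map_add]
  exact le_V0 μ fun x => (abs_add_le _ _).trans (by
    simpa [add_comm] using add_le_add (hf x) (hg x))

theorem V_smul (μ : StrongDual ℝ CK) {h h' : CK} {c : ℝ} (hc : 0 < c) (h0 : ∀ x, 0 ≤ h x)
    (H : ∀ x, h x ≤ c * h' x) : V μ h ≤ c * V μ h' := by
  refine V_le h0 fun f hf => ?_
  have := le_V0 μ (f := c⁻¹ • f) (h := h') fun x => by
    rw [ContinuousMap.smul_apply, smul_eq_mul, abs_mul, abs_of_pos (inv_pos.2 hc),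
      inv_mul_le_iff₀ hc]
    exact (hf x).trans (H x)
  rwa [map_smul, smul_eq_mul, inv_mul_le_iff₀ hc] at this

structure Quad {X : Type} [NormedAddCommGroup X] [NormedSpace ℝ X] (P : X → ℝ) : Prop where
  nonneg : ∀ f, 0 ≤ P f
  par : ∀ f g, P (f + g) + P (f - g) ≤ 2 * P f + 2 * P g
  smul : ∀ (c : ℝ) f, 0 < c → P (c • f) ≤ c ^ 2 * P f
  bdd : ∃ B, 0 ≤ B ∧ ∀ f, P f ≤ B * ‖f‖ ^ 2

theorem quad_V (μ : StrongDual ℝ CK) : Quad fun f : CK => V μ (f * f) where
  nonneg f := V_nonneg μ fun x => mul_self_nonneg _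
  par f g := by
    have h1 := V_super μ (h1 := (f + g) * (f + g)) (h2 := (f - g) * (f - g))
      (fun x => mul_self_nonneg _) fun x => mul_self_nonneg _
    have h2 := V_smul μ (h := (f + g) * (f + g) + (f - g) * (f - g)) (h' := f * f + g * g) two_pos
      (fun x => add_nonneg (mul_self_nonneg _) (mul_self_nonneg _)) fun x => by
        simp; nlinarith
    have h3 := V_sub μ (h := f * f + g * g) (h1 := f * f) (h2 := g * g)
      (fun x => add_nonneg (mul_self_nonneg _) (mul_self_nonneg _)) (fun x => mul_self_nonneg _)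
      (fun x => mul_self_nonneg _) fun x => le_rfl
    linarith
  smul c f hc := V_smul μ (by positivity) (fun x => mul_self_nonneg _) fun x => by simp; nlinarith
  bdd := ⟨‖μ‖, norm_nonneg μ, fun f => V_le (fun x => mul_self_nonneg _) fun g hg =>
    (le_abs_self _).trans (μ.le_opNorm_of_le ((ContinuousMap.norm_le _ (by positivity)).2 fun x =>
      (hg x).trans (by
        rw [ContinuousMap.mul_apply, ← abs_mul_abs_self, ← sq]
        exact pow_le_pow_left₀ (abs_nonneg _) (f.norm_coe_le_norm x) 2)))⟩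

theorem Quad.sum {X J : Type} [NormedAddCommGroup X] [NormedSpace ℝ X] (S : Finset J)
    {P : J → X → ℝ} (h : ∀ j, Quad (P j)) : Quad fun f => ∑ j ∈ S, P j f where
  nonneg f := Finset.sum_nonneg fun j _ => (h j).nonneg f
  par f g := by
    simpa only [Finset.mul_sum, ← Finset.sum_add_distrib] using
      Finset.sum_le_sum fun j _ => (h j).par f g
  smul c f hc := by simpa only [Finset.mul_sum] using Finset.sum_le_sum fun j _ => (h j).smul c f hc
  bdd := by
    choose B h1 h2 using fun j => (h j).bdd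
    exact ⟨∑ j ∈ S, B j, Finset.sum_nonneg fun j _ => h1 j, fun f => by
      simpa only [Finset.sum_mul] using Finset.sum_le_sum fun j _ => h2 j f⟩

theorem Quad.comp {X Y : Type} [NormedAddCommGroup X] [NormedSpace ℝ X] [NormedAddCommGroup Y]
    [NormedSpace ℝ Y] {P : Y → ℝ} (h : Quad P) (T : X →L[ℝ] Y) : Quad fun f => P (T f) where
  nonneg f := h.nonneg _
  par f g := by simpa using h.par (T f) (T g)
  smul c f hc := by simpa using h.smul c (T f) hc
  bdd := by
    obtain ⟨B, h1, h2⟩ := h.bdd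
    refine ⟨B * ‖T‖ ^ 2, by positivity, fun f => (h2 _).trans ?_⟩
    rw [mul_assoc, ← mul_pow]
    gcongr
    exact T.le_opNorm f

noncomputable def ind (a : Set K) : CK :=
  if h : IsClopen a then ⟨a.indicator 1, h.continuous_indicator continuous_const⟩ else 0

theorem ind_apply {a : Set K} (h : IsClopen a) (x : K) : ind a x = if x ∈ a then 1 else 0 := by
  simp [ind, h, indicator_apply]

theorem dom (M : Set (StrongDual ℝ CK)) {C : ℝ} (hC : ∀ μ ∈ M, ‖μ‖ ≤ C)
    (hM : ∀ f : ℕ → CK, (∀ φ : StrongDual ℝ CK, Tendsto (fun k => φ (f k)) atTop (𝓝 0)) →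
      ∀ η, 0 < η → ∀ᶠ k in atTop, ∀ μ ∈ M, |μ (f k)| ≤ η) {ε R : ℝ} (hε : 0 < ε) (hR : 0 < R) :
    ∃ (P : CK → ℝ) (δ : ℝ), Quad P ∧ 0 < δ ∧ ∀ f, ‖f‖ ≤ R → P f ≤ δ → ∀ μ ∈ M, |μ f| ≤ ε := by
  have hi : ∀ a, IsClopen a → ∀ x, 0 ≤ ind a x := fun a ha x => by
    rw [ind_apply ha]; split_ifs <;> norm_num
  obtain ⟨S, δ, hδ, h⟩ := control (fun (μ : M) a => V μ.1 (ind a))
    (fun μ => V_le (hi _ isClopen_empty) fun f hf => by
      have : f = 0 := ContinuousMap.ext fun x => by simpa [ind_apply isClopen_empty] using hf x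
      simp [this])
    (fun μ a b c ha hb hc h => V_sub _ (hi _ ha) (hi _ hb) (hi _ hc) fun x => by
      have := @h x
      simp only [ind_apply, ha, hb, hc, mem_union] at *
      split_ifs <;> simp_all)
    (fun D hD hm η hη => by
      have : ∀ j, ∃ f : CK, (∀ x, |f x| ≤ ind (D (j + 1) \ D j) x) ∧
          ((∀ μ ∈ M, |μ f| ≤ η) → ∀ μ : M, V μ.1 (ind (D (j + 1) \ D j)) ≤ η) := fun j => by
        by_contra hc
        push Not at hc
        obtain ⟨-, μ, h⟩ := hc 0 (by simpa using hi _ ((hD _).diff (hD _)))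
        exact absurd (V_le (hi _ ((hD _).diff (hD _))) fun f hf =>
          (le_abs_self _).trans ((hc f hf).1 _ μ.2)) (not_le.2 h)
      choose f h1 h2 using this
      refine (hM f (fun φ => ?_) η hη).mono h2
      refine Summable.tendsto_atTop_zero (Summable.of_abs
        (summable_of_sum_range_le (c := ‖φ‖) (fun _ => abs_nonneg _) fun m => ?_))
      have h3 : ∀ x, |(∑ j ∈ Finset.range m, (SignType.sign (φ (f j)) : ℝ) • f j) x| ≤ ind (D m) x := by
        intro x
        induction m with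
        | zero => simpa using hi _ (hD _) x
        | succ m ih =>
          rw [Finset.sum_range_succ, ContinuousMap.add_apply]
          refine (abs_add_le _ _).trans ((add_le_add ih (le_trans ?_ (h1 m x))).trans ?_)
          · rcases SignType.trichotomy (SignType.sign (φ (f m))) with h | h | h <;> simp [h]
          · have := @hm m (m + 1) (by omega) x
            simp only [ind_apply, hD, (hD _).diff (hD _), mem_diff]
            split_ifs <;> simp_all
      have h4 := φ.unit_le_opNorm _ ((ContinuousMap.norm_le _ zero_le_one).2 fun x =>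
        (h3 x).trans (by rw [ind_apply (hD _)]; split_ifs <;> norm_num))
      refine le_trans (le_of_eq ?_) ((le_abs_self _).trans h4)
      rw [map_sum]
      refine Finset.sum_congr rfl fun j _ => ?_
      rcases lt_trichotomy (φ (f j)) 0 with h | h | h <;> simp [h, abs_of_neg, abs_of_pos])
    (show 0 < ε / 2 / R by positivity)
  let η := ε / 4 / (|C| + 1)
  have hη : 0 < η := by positivity
  refine ⟨_, δ * η ^ 2, Quad.sum S fun μ => quad_V μ.1, by positivity, fun f hf hP μ hμ => ?_⟩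
  obtain ⟨a, ha, h1, h2⟩ := exists_clopen_of_closed_subset_open (Z := {x | 2 * η ≤ |f x|})
    (U := {x | η < |f x|}) (isClosed_le continuous_const (by fun_prop))
    (isOpen_lt continuous_const (by fun_prop)) fun x hx => lt_of_lt_of_le (show η < 2 * η by linarith) hx
  have h3 := h a ha (fun ν hν => by
    refine (V_smul ν.1 (h' := f * f) (c := (η ^ 2)⁻¹) (by positivity) (hi _ ha) fun x => ?_).trans ?_
    · rw [ind_apply ha, ContinuousMap.mul_apply]
      split_ifs with hx
      · rw [le_inv_mul_iff₀ (by positivity), mul_one, ← abs_mul_abs_self, ← sq]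
        exact pow_le_pow_left₀ hη.le (h2 hx).le 2
      · exact mul_nonneg (by positivity) (mul_self_nonneg _)
    · rw [inv_mul_le_iff₀ (by positivity), mul_comm _ δ]
      exact (Finset.single_le_sum (f := fun μ : M => V μ.1 (f * f))
        (fun j _ => (quad_V _).nonneg f) hν).trans hP) ⟨μ, hμ⟩
  have h4 : |μ (R⁻¹ • (f * ind a))| ≤ ε / 2 / R := (le_V μ fun x => by
    simp only [ContinuousMap.smul_apply, ContinuousMap.mul_apply, ind_apply ha, smul_eq_mul]
    split_ifs
    · rw [mul_one, abs_mul, abs_of_pos (inv_pos.2 hR), inv_mul_le_iff₀ hR, mul_one]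
      exact (f.norm_coe_le_norm x).trans hf
    · simp).trans h3
  have h5 : |μ (f - f * ind a)| ≤ (|C| + 1) * (2 * η) := μ.le_of_opNorm_le_of_le
    ((hC μ hμ).trans (by linarith [le_abs_self C])) ((ContinuousMap.norm_le _ (by positivity)).2
      fun x => by
        simp only [ContinuousMap.sub_apply, ContinuousMap.mul_apply, ind_apply ha]
        split_ifs with hx
        · simpa using hη.le
        · simpa using (not_le.1 (mt (@h1 x) hx)).le)
  rw [map_smul, smul_eq_mul, abs_mul, abs_of_pos (inv_pos.2 hR), inv_mul_le_iff₀ hR,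
    mul_div_cancel₀ _ hR.ne'] at h4
  rw [map_sub, show (|C| + 1) * (2 * η) = ε / 2 by simp only [η]; field_simp; ring] at h5
  linarith [abs_sub_abs_le_abs_sub (μ f) (μ (f * ind a))]

end Pool.Agent.H.MP_997199_an
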