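import Mathlib
import Pool.Agent.H.MP_997199_an.A

set_option autoImplicit false

namespace Pool.Agent.H.MP_997199_an

open Set Filter Topology
open scoped ENNReal Classical

section General

variable {X E : Type} [NormedAddCommGroup X] [NormedSpace ℝ X] [NormedAddCommGroup E]
  [NormedSpace ℝ E]

theorem weak_lim {ι : Type} {L : Set X} (hL : IsWC L) (U : Ultrafilter ι) (G : ι → L) :
    ∃ g : X, ∀ φ : StrongDual ℝ X, Tendsto (fun i => φ (G i)) U (𝓝 (φ g)) := by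
  obtain ⟨_, ⟨g, hg, rfl⟩, h⟩ := hL.ultrafilter_le_nhds (U.map fun i => toWeakSpace ℝ X (G i))
    (by
      rw [Ultrafilter.coe_map, le_principal_iff, mem_map]
      exact univ_mem' fun i => ⟨_, (G i).2, rfl⟩)
  exact ⟨g, fun φ => ((WeakBilin.eval_continuous (topDualPairing ℝ X).flip φ).tendsto _).comp h⟩

noncomputable def bid (x : X) : WeakDual ℝ (StrongDual ℝ X) :=
  StrongDual.toWeakDual (NormedSpace.inclusionInDoubleDual ℝ X x)

theorem bid_ind : IsInducing fun x : WeakSpace ℝ X => bid ((toWeakSpace ℝ X).symm x) :=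
  IsInducing.of_comp (g := fun (z : WeakDual ℝ (StrongDual ℝ X)) φ => z φ)
    (WeakDual.continuous_of_continuous_eval fun φ =>
      WeakBilin.eval_continuous (topDualPairing ℝ X).flip φ) WeakDual.coeFn_continuous ⟨rfl⟩

theorem wc_of_quad [CompleteSpace E] (T : X →L[ℝ] E) (h : ∀ ε, 0 < ε → ∃ (P : X → ℝ) (δ : ℝ),
    Quad P ∧ 0 < δ ∧ ∀ x, ‖x‖ ≤ 1 → P x ≤ δ → ‖T x‖ ≤ ε) :
    ∃ W : Set E, IsWC W ∧ T '' Metric.closedBall 0 1 ⊆ W := by
  let f : Metric.closedBall (0 : X) 1 → WeakDual ℝ (StrongDual ℝ E) := fun a => bid (T a)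
  refine ⟨bid ⁻¹' closure (range f), bid_ind.isCompact_iff.2 ?_, ?_⟩
  swap
  · rintro _ ⟨x, hx, rfl⟩
    exact subset_closure ⟨⟨x, hx⟩, rfl⟩
  have hc : IsCompact (closure (range f)) := by
    refine (WeakDual.isCompact_closedBall (0 : StrongDual ℝ (StrongDual ℝ E)) ‖T‖).closure_of_subset ?_
    rintro _ ⟨a, rfl⟩
    simpa [f, bid] using (NormedSpace.double_dual_bound ℝ E _).trans
      (T.unit_le_opNorm a (mem_closedBall_zero_iff.1 a.2))
  convert hc
  ext z
  constructor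
  · rintro ⟨_, ⟨x, hx, rfl⟩, rfl⟩; exact hx
  intro hz
  suffices WeakDual.toStrongDual z ∈ range (NormedSpace.inclusionInDoubleDualLi ℝ (E := E)) by
    obtain ⟨x, hx⟩ := this
    obtain rfl : bid x = z := congrArg StrongDual.toWeakDual hx
    exact ⟨_, ⟨x, hz, rfl⟩, rfl⟩
  refine (NormedSpace.inclusionInDoubleDualLi ℝ).isometry.isClosedEmbedding.isClosed_range.closure_subset
    (Metric.mem_closure_iff.2 fun ε hε => ?_)
  haveI : (comap f (𝓝 z)).NeBot := comap_neBot fun t ht => by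
    obtain ⟨_, h1, a, rfl⟩ := mem_closure_iff_nhds.1 hz t ht
    exact ⟨a, h1⟩
  let U := Ultrafilter.of (comap f (𝓝 z))
  have hU : ∀ φ : StrongDual ℝ E, Tendsto (fun a : Metric.closedBall (0 : X) 1 => φ (T a)) U
      (𝓝 (z φ)) := fun φ => ((WeakDual.eval_continuous φ).tendsto z).comp
    (tendsto_comap.mono_left (Ultrafilter.of_le _))
  obtain ⟨P, δ, hP, hδ, hT⟩ := h (ε / 4) (by positivity)
  let D := {t | ∃ C : Set X, Convex ℝ C ∧ C ⊆ Metric.closedBall 0 1 ∧ (∀ᶠ a : Metric.closedBall (0 : X) 1 in U, a.1 ∈ C) ∧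
    ∀ x ∈ C, t ≤ P x}
  have hD : BddAbove D := by
    obtain ⟨B, h1, h2⟩ := hP.bdd
    refine ⟨B, ?_⟩
    rintro t ⟨C, -, h3, h4, h5⟩
    obtain ⟨a, ha⟩ := h4.exists
    exact (h5 _ ha).trans ((h2 _).trans (mul_le_of_le_one_right h1
      (pow_le_one₀ (norm_nonneg _) (mem_closedBall_zero_iff.1 a.2))))
  obtain ⟨t, ⟨C, h1, h2, h3, h4⟩, ht⟩ := exists_lt_of_lt_csSup (s := D)
    ⟨0, _, convex_closedBall _ _, Subset.rfl, Eventually.of_forall fun a => a.2,
      fun x _ => hP.nonneg x⟩ (sub_lt_self _ (half_pos hδ))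
  have h5 : ∀ C' : Set X, Convex ℝ C' → (∀ᶠ a : Metric.closedBall (0 : X) 1 in U, a.1 ∈ C') → ∃ x ∈ C ∩ C',
      P x < sSup D + δ / 2 := fun C' a1 a2 => by
    by_contra hc
    push Not at hc
    linarith [le_csSup hD ⟨_, h1.inter a1, inter_subset_left.trans h2, h3.and a2, hc⟩]
  obtain ⟨g, ⟨hg, -⟩, hg'⟩ := h5 univ convex_univ (by simp)
  refine ⟨_, ⟨T g, rfl⟩, ?_⟩
  rw [dist_eq_norm]
  refine lt_of_le_of_lt (ContinuousLinearMap.opNorm_le_bound _ (half_pos hε).le fun φ =>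
    le_of_forall_pos_le_add fun η hη => ?_) (half_lt_self hε)
  obtain ⟨x, ⟨hx, hx1⟩, hx2⟩ := h5 ((φ.comp T) ⁻¹' Metric.ball (z φ) η)
    ((convex_ball _ _).linear_preimage (φ.comp T).toLinearMap)
    (hU φ (Metric.ball_mem_nhds _ hη))
  have e1 := h4 _ (h1 hx hg (show (0 : ℝ) ≤ 1 / 2 by norm_num) (show (0 : ℝ) ≤ 1 / 2 by norm_num)
    (by norm_num))
  rw [← smul_add] at e1
  have e2 := hT ((1 / 2 : ℝ) • (x - g)) (by
    have := norm_sub_le_of_le (mem_closedBall_zero_iff.1 (h2 hx)) (mem_closedBall_zero_iff.1 (h2 hg))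
    rw [norm_smul]; norm_num; linarith) (by
      linarith [hP.smul (1 / 2) (x - g) (by norm_num), hP.smul (1 / 2) (x + g) (by norm_num),
        hP.par x g])
  have e3 := φ.le_opNorm_of_le e2
  rw [map_smul, map_smul, norm_smul, map_sub, map_sub] at e3
  have e4 : ‖φ (T x) - z φ‖ < η := mem_ball_iff_norm.1 hx1
  have e5 := norm_sub_le (φ (T x) - φ (T g)) (φ (T x) - z φ)
  rw [sub_sub_sub_cancel_left] at e5
  change ‖z φ - φ (T g)‖ ≤ _
  norm_num at e3 e4 e5 ⊢
  linarith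

theorem mackey_L {H : Set (StrongDual ℝ X)} (hH : MackeyCompact H) (x : ℕ → X)
    (hx : ∀ φ : StrongDual ℝ X, Tendsto (fun k => φ (x k)) atTop (𝓝 0)) {η : ℝ} (hη : 0 < η) :
    ∀ᶠ k in atTop, ∀ μ ∈ H, |μ (x k)| ≤ η := by
  have hL : IsWC (insert 0 (range x)) := by
    rw [IsWC, image_insert_eq, ← range_comp]
    exact Tendsto.isCompact_insert_range (bid_ind.tendsto_nhds_iff.2
      (tendsto_iff_forall_eval_tendsto_topDualPairing.2 fun φ => by
        have := hx φ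
        rw [← map_zero φ] at this
        exact this))
  have := hH.induction_on (p := fun s => ∀ᶠ k in atTop, ∀ F ∈ s, |UniformOnFun.toFun _ F (x k)| ≤ η)
    (by simp) (fun s t hst ht => ht.mono fun F hF y hy => hF y (hst hy))
    (fun s t hs ht => (hs.and ht).mono fun F hF y hy => hy.elim (hF.1 y) (hF.2 y)) (by
      rintro _ ⟨μ, -, rfl⟩
      refine ⟨_, mem_nhdsWithin_of_mem_nhds (Metric.tendstoUniformlyOn_iff.1
        (UniformOnFun.tendsto_iff_tendstoUniformlyOn.1 tendsto_id _ hL) _ (half_pos hη)), ?_⟩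
      filter_upwards [hx μ (Metric.ball_mem_nhds _ (half_pos hη))] with k hk F hF
      have h1 : |μ (x k) - UniformOnFun.toFun _ F (x k)| < η / 2 := hF _ (Or.inr ⟨k, rfl⟩)
      have h2 : |μ (x k)| < η / 2 := mem_ball_zero_iff.1 hk
      rw [abs_lt] at h1 h2
      rw [abs_le]; constructor <;> linarith)
  exact this.mono fun k hk μ hμ => hk _ ⟨μ, hμ, rfl⟩

def sg (b : Bool) : ℝ := if b then 1 else -1

theorem Quad.signs {P : X → ℝ} (h : Quad P) (r : ℕ → X) (hr : ∀ k, ‖r k‖ ≤ 1) {δ : ℝ} (hδ : 0 < δ) :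
    ∃ (m : ℕ) (θ : K), 0 < m ∧ P ((m : ℝ)⁻¹ • ∑ k ∈ Finset.range m, sg (θ k) • r k) ≤ δ := by
  obtain ⟨B, h1, h2⟩ := h.bdd
  have : ∀ m : ℕ, ∃ θ : K, P (∑ k ∈ Finset.range m, sg (θ k) • r k) ≤ m * B := by
    intro m
    induction m with
    | zero => exact ⟨fun _ => true, by simpa using h2 0⟩
    | succ m ih =>
      obtain ⟨θ, hθ⟩ := ih
      have h3 : ∀ b, ∑ k ∈ Finset.range (m + 1), sg (Function.update θ m b k) • r k =
          ∑ k ∈ Finset.range m, sg (θ k) • r k + sg b • r m := fun b => by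
        rw [Finset.sum_range_succ, Function.update_self]
        exact congrArg (· + _) (Finset.sum_congr rfl fun k hk => by
          rw [Function.update_of_ne (Finset.mem_range.1 hk).ne])
      have h4 := (h2 (r m)).trans (mul_le_of_le_one_right h1 (pow_le_one₀ (norm_nonneg _) (hr m)))
      have h5 := h.par (∑ k ∈ Finset.range m, sg (θ k) • r k) (r m)
      by_contra hc
      push Not at hc
      have h6 := hc (Function.update θ m true)
      have h7 := hc (Function.update θ m false)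
      rw [h3] at h6 h7
      simp only [sg, if_true, one_smul, Bool.false_eq_true, if_false, neg_smul, ← sub_eq_add_neg,
        Nat.cast_succ] at *
      linarith
  obtain ⟨m, hm⟩ := exists_nat_gt (B / δ)
  have h0 : (0 : ℝ) < m := lt_of_le_of_lt (by positivity) hm
  obtain ⟨θ, hθ⟩ := this m
  refine ⟨m, θ, Nat.cast_pos.1 h0, (h.smul _ _ (inv_pos.2 h0)).trans
    ((mul_le_mul_of_nonneg_left hθ (by positivity)).trans ?_)⟩
  rw [div_lt_iff₀ hδ] at hm
  field_simp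
  linarith

end General

def spl (N : ℕ) (ρ σ : K) : K := fun k => if k < N then ρ k else σ k

theorem unif (f : CK) {η : ℝ} (hη : 0 < η) (ρ : K) :
    ∀ᶠ N in atTop, ∀ σ : K, (∀ k < N, σ k = ρ k) → |f σ - f ρ| < η := by
  have := f.continuous.tendsto ρ (Metric.ball_mem_nhds _ hη)
  rw [mem_map, nhds_pi, mem_pi'] at this
  obtain ⟨I, t, h1, h2⟩ := this
  filter_upwards [eventually_gt_atTop (I.sup id)] with N hN σ h
  refine h2 (a := σ) fun i hi => ?_
  rw [h i ((Finset.le_sup (f := id) hi).trans_lt hN)]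
  exact mem_of_mem_nhds (h1 i)

theorem osc {L : Set CK} (hL : ∀ (U : Ultrafilter ℕ) (g : ℕ → L), ∃ f : CK,
      ∀ σ, Tendsto (fun i => (g i).1 σ) U (𝓝 (f σ))) {β : ℝ} (hβ : 0 < β)
    (hP : ∀ f ∈ L, ∀ N ρ σ τ, (∀ k < N, σ k = τ k) →
      |f (spl N ρ σ) - f (spl N ρ τ) - (f σ - f τ)| ≤ β) :
    ∃ N, ∀ f ∈ L, ∀ σ τ : K, (∀ k < N, σ k = τ k) → |f σ - f τ| ≤ 2 * β := by
  by_contra hc
  push Not at hc
  choose g hg σ τ h1 h2 using hc
  have hU : (hyperfilter ℕ : Filter ℕ) ≤ atTop := Nat.cofinite_eq_atTop ▸ hyperfilter_le_cofinite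
  obtain ⟨f, hf⟩ := hL (hyperfilter ℕ) fun i => ⟨g i, hg i⟩
  have step : ∀ (S : Finset K) (N : ℕ) (ρ : K), ∃ (n : ℕ) (ρ' : K) (N' : ℕ), (∀ ρ0 ∈ insert ρ S, |g n ρ0 - f ρ0| <
      1 / (N + 1)) ∧ (∀ k < N, ρ' k = ρ k) ∧ N < N' ∧
      ∀ ρ1 : K, (∀ k < N', ρ1 k = ρ' k) → β / 4 < |g n ρ1 - g n ρ| := by
    intro S N ρ
    obtain ⟨n, h3, h4⟩ := (((eventually_all_finset (insert ρ S)).2 fun ρ0 _ =>
      Metric.tendsto_nhds.1 (hf ρ0) _ (Nat.one_div_pos_of_nat (n := N))).and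
      (hU (eventually_ge_atTop N))).exists
    obtain ⟨ρ', h5, h6⟩ : ∃ ρ' : K, (∀ k < N, ρ' k = ρ k) ∧ β / 2 < |g n ρ' - g n ρ| := by
      by_contra hc
      push Not at hc
      have a1 := hc (spl n ρ (σ n)) fun k hk => if_pos (hk.trans_le h4)
      have a2 := hc (spl n ρ (τ n)) fun k hk => if_pos (hk.trans_le h4)
      have a3 := hP _ (hg n) n ρ _ _ (h1 n)
      have a4 := h2 n
      rw [abs_le] at a1 a2 a3
      rw [lt_abs] at a4
      rcases a4 with a4 | a4 <;> linarith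
    obtain ⟨N', h7, h8⟩ := ((eventually_gt_atTop N).and
      (unif (g n) (show 0 < β / 4 by positivity) ρ')).exists
    refine ⟨n, ρ', N', h3, h5, h7, fun ρ1 h => ?_⟩
    linarith [h8 ρ1 h, abs_sub_le (g n ρ') (g n ρ1) (g n ρ), abs_sub_comm (g n ρ') (g n ρ1)]
  choose n ρ' N' s1 s2 s3 s4 using step
  let q : ℕ → Finset K × ℕ × K := fun i => Nat.rec (∅, 0, fun _ => true)
    (fun _ q => (insert q.2.2 q.1, N' q.1 q.2.1 q.2.2, ρ' q.1 q.2.1 q.2.2)) i
  have hN : StrictMono fun i => (q i).2.1 := strictMono_nat_of_lt_succ fun i => s3 _ _ _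
  have hS : Monotone fun i => (q i).1 := monotone_nat_of_le_succ fun i => Finset.subset_insert _ _
  have ha : ∀ i j, i ≤ j → ∀ k < (q i).2.1, (q j).2.2 k = (q i).2.2 k := by
    intro i j hij k hk
    induction j, hij using Nat.le_induction with
    | base => rfl
    | succ j hj ih => exact (s2 _ _ _ k (hk.trans_le (hN.monotone hj))).trans ih
  let ρ : K := fun k => (q (k + 1)).2.2 k
  have hρ : ∀ i, ∀ k < (q i).2.1, ρ k = (q i).2.2 k := fun i k hk =>
    (ha (k + 1) _ (le_max_left _ i) k (hN.id_le (k + 1))).symm.trans (ha i _ (le_max_right _ _) k hk)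
  have hlim : Tendsto (fun i => (q i).2.2) atTop (𝓝 ρ) := tendsto_pi_nhds.2 fun k =>
    tendsto_const_nhds.congr' (by
      filter_upwards [eventually_gt_atTop k] with i hi using hρ i k (hi.trans_le (hN.id_le i)))
  let G : ℕ → CK := fun i => g (n (q i).1 (q i).2.1 (q i).2.2)
  obtain ⟨f', hf'⟩ := hL (hyperfilter ℕ) fun i => ⟨G i, hg _⟩
  have h0 : Tendsto (fun i => 1 / (((q i).2.1 : ℝ) + 1)) atTop (𝓝 0) :=
    tendsto_one_div_add_atTop_nhds_zero_nat.comp hN.tendsto_atTop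
  have e1 : ∀ j, f' (q j).2.2 = f (q j).2.2 := fun j => tendsto_nhds_unique (hf' _)
    (Tendsto.mono_left (tendsto_iff_dist_tendsto_zero.2 (squeeze_zero'
      (Eventually.of_forall fun _ => dist_nonneg) (by
        filter_upwards [eventually_gt_atTop j] with i hi
        exact (s1 _ _ _ _ (Finset.mem_insert_of_mem (hS hi (Finset.mem_insert_self _ _)))).le) h0)) hU)
  have e2 : f' ρ = f ρ := tendsto_nhds_unique ((f'.continuous.tendsto ρ).comp hlim)
    (((f.continuous.tendsto ρ).comp hlim).congr fun j => (e1 j).symm)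
  have e3 : Tendsto (fun i => G i (q i).2.2) atTop (𝓝 (f ρ)) :=
    ((f.continuous.tendsto ρ).comp hlim).congr_dist (squeeze_zero (fun _ => dist_nonneg)
      (fun i => by rw [dist_comm]; exact (s1 _ _ _ _ (Finset.mem_insert_self _ _)).le) h0)
  have e4 := ge_of_tendsto' ((hf' ρ).sub (e3.mono_left hU)).abs fun i =>
    (s4 _ _ _ ρ (hρ (i + 1))).le
  rw [e2, sub_self, abs_zero] at e4
  linarith

section L2

variable {G : ℕ → Type} [∀ n, NormedAddCommGroup (G n)] [∀ n, NormedSpace ℝ (G n)]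

theorem pyth (u v : lp G 2) (h : ∀ n, u n = 0 ∨ v n = 0) : ‖u + v‖ ^ 2 = ‖u‖ ^ 2 + ‖v‖ ^ 2 := by
  have h1 := fun w : lp G 2 => lp.hasSum_norm (p := 2) (by norm_num) w
  simp only [ENNReal.toReal_ofNat, Real.rpow_ofNat] at h1
  refine (h1 _).unique ?_
  convert (h1 u).add (h1 v) using 2 with n
  rcases h n with h | h <;> simp [h]

noncomputable def hd (N : ℕ) (x : lp G 2) : lp G 2 := ∑ n ∈ Finset.range N, lp.single 2 n (x n)

theorem hd_apply (N : ℕ) (x : lp G 2) (n : ℕ) : hd N x n = if n < N then x n else 0 := by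
  rw [hd, lp.coeFn_sum, Finset.sum_apply]
  simp [Finset.sum_pi_single]

theorem tail_null (φ : StrongDual ℝ (lp G 2)) (x : ℕ → lp G 2) (h1 : ∀ N, ‖x N‖ ≤ 1)
    (h2 : ∀ N, ∀ n < N, x N n = 0) : Tendsto (fun N => φ (x N)) atTop (𝓝 0) := by
  refine Metric.tendsto_nhds.2 fun c hc => ?_
  let t := c / (‖φ‖ + 1)
  have ht : 0 < t := by positivity
  obtain ⟨u, hu, hu'⟩ := φ.exists_lt_apply_of_lt_opNorm
    (sub_lt_self ‖φ‖ (show 0 < t * c / 2 by positivity))
  have h3 : Tendsto (fun N => ‖φ (hd N u)‖) atTop (𝓝 ‖φ u‖) :=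
    ((φ.continuous.tendsto u).comp (lp.hasSum_single (by norm_num) u).tendsto_sum_nat).norm
  filter_upwards [h3.eventually (lt_mem_nhds hu')] with N hN
  have h4 : ‖hd N u‖ ≤ 1 := (lp.norm_mono (by norm_num) fun n => by
    rw [hd_apply]; split_ifs <;> simp).trans hu.le
  have h5 : ∀ s : ℝ, |s| = t → |φ (hd N u) + s * φ (x N)| ≤ ‖φ‖ * (1 + t ^ 2 / 2) := fun s hs => by
    rw [← smul_eq_mul, ← map_smul, ← map_add]
    refine φ.le_opNorm_of_le ((pow_le_pow_iff_left₀ (by positivity) (by positivity) two_ne_zero).1 ?_)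
    rw [pyth _ _ fun n => by by_cases h : n < N <;> simp [hd_apply, h, h2 N n], norm_smul,
      Real.norm_eq_abs, hs, mul_pow]
    nlinarith [pow_le_one₀ (n := 2) (norm_nonneg _) h4, pow_le_one₀ (n := 2) (norm_nonneg _) (h1 N),
      sq_nonneg t, sq_nonneg (t ^ 2)]
  have h6 := abs_le.1 (h5 t (abs_of_pos ht))
  have h7 := abs_le.1 (h5 (-t) (by rw [abs_neg, abs_of_pos ht]))
  have h8 : ‖φ‖ * t ≤ c := by
    rw [mul_div_assoc', div_le_iff₀ (by positivity)]; nlinarith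
  rw [Real.norm_eq_abs, lt_abs] at hN
  rw [dist_zero_right, Real.norm_eq_abs, abs_lt]
  constructor <;> refine lt_of_mul_lt_mul_left ?_ ht.le <;> rcases hN with h | h <;> nlinarith

end L2

end Pool.Agent.H.MP_997199_an
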