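import Mathlib
import Pool.Agent.H.MP_997199_an.B

set_option autoImplicit false

namespace Pool.Agent.H.MP_997199_an

open Set Filter Topology
open scoped ENNReal Classical

def Z : Submodule ℝ CK where
  carrier := {g | ∀ N ρ σ τ, (∀ k < N, σ k = τ k) → g (spl N ρ σ) - g (spl N ρ τ) = g σ - g τ}
  add_mem' hf hg N ρ σ τ h := by
    simp only [ContinuousMap.add_apply]; linarith [hf N ρ σ τ h, hg N ρ σ τ h]
  zero_mem' _ _ _ _ _ := rfl
  smul_mem' c f hf N ρ σ τ h := by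
    simp only [ContinuousMap.smul_apply, smul_eq_mul, ← mul_sub, hf N ρ σ τ h]

instance : CompleteSpace Z := IsClosed.completeSpace_coe (hs := by
  simp only [Z, Submodule.coe_set_mk, AddSubmonoid.coe_set_mk, AddSubsemigroup.coe_set_mk,
    ofPred_forall]
  exact isClosed_iInter fun _ => isClosed_iInter fun _ => isClosed_iInter fun _ =>
    isClosed_iInter fun _ => isClosed_iInter fun _ => isClosed_eq (by fun_prop) (by fun_prop))

def rad (k : ℕ) : CK :=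
  ⟨fun σ => sg (σ k), (continuous_of_discreteTopology (f := sg)).comp (continuous_apply k)⟩

theorem rad_mem (k : ℕ) : rad k ∈ Z := fun N ρ σ τ h => by
  by_cases hk : k < N
  · simp [rad, spl, hk, h k hk]
  · simp [rad, spl, hk]

theorem abs_sg (b : Bool) : |sg b| = 1 := by cases b <;> simp [sg]

theorem rad_le (k : ℕ) : ‖rad k‖ ≤ 1 :=
  (ContinuousMap.norm_le _ zero_le_one).2 fun σ => (abs_sg _).le

noncomputable def al (n : ℕ) : ℝ := 1 / (16 * (n + 1))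

theorem al_pos (n : ℕ) : 0 < al n := by unfold al; positivity

noncomputable def S (n : ℕ) : CK × Z →L[ℝ] CK :=
  al n • ContinuousLinearMap.fst ℝ CK Z + Z.subtypeL.comp (ContinuousLinearMap.snd ℝ CK Z)

instance (n : ℕ) : IsClosed ((S n).ker : Set (CK × Z)) := (S n).isClosed_ker

def G (n : ℕ) : Type := (CK × Z) ⧸ (S n).ker

noncomputable instance (n : ℕ) : NormedAddCommGroup (G n) :=
  inferInstanceAs (NormedAddCommGroup ((CK × Z) ⧸ (S n).ker))

noncomputable instance (n : ℕ) : NormedSpace ℝ (G n) :=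
  inferInstanceAs (NormedSpace ℝ ((CK × Z) ⧸ (S n).ker))

instance (n : ℕ) : CompleteSpace (G n) :=
  inferInstanceAs (CompleteSpace ((CK × Z) ⧸ (S n).ker))

noncomputable def mkG (n : ℕ) : CK × Z →L[ℝ] G n := (S n).ker.mkQL

noncomputable def e (n : ℕ) : G n →L[ℝ] CK := (S n).ker.liftQL (S n) le_rfl

theorem e_mk (n : ℕ) (p : CK × Z) : e n (mkG n p) = al n • p.1 + p.2.1 := rfl

theorem mk_le (n : ℕ) (p : CK × Z) : ‖mkG n p‖ ≤ ‖p‖ := Submodule.Quotient.norm_mk_le _ p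

theorem mk_lt (n : ℕ) (x : G n) : ∃ p, mkG n p = x ∧ ‖p‖ < ‖x‖ + 1 :=
  Submodule.Quotient.norm_mk_lt x one_pos

theorem e_inj (n : ℕ) {x y : G n} (h : e n x = e n y) : x = y := by
  obtain ⟨p, rfl, -⟩ := mk_lt n x
  obtain ⟨q, rfl, -⟩ := mk_lt n y
  exact (Submodule.Quotient.eq _).2 (by
    rw [LinearMap.mem_ker, map_sub]; exact sub_eq_zero.2 h)

noncomputable def j (n : ℕ) : CK →L[ℝ] G n :=
  (al n)⁻¹ • (mkG n).comp (ContinuousLinearMap.inl ℝ CK Z)

theorem e_j (n : ℕ) (f : CK) : e n (j n f) = f := by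
  simp [j, e_mk, smul_smul, (al_pos n).ne']

abbrev XX : Type := lp G 2

noncomputable def ev (n : ℕ) : XX →L[ℝ] CK := (e n).comp (lp.evalCLM ℝ G 2 n)

noncomputable def J (n : ℕ) : CK →L[ℝ] XX := (lp.singleContinuousLinearMap ℝ G 2 n).comp (j n)

theorem ev_apply (n : ℕ) (x : XX) : ev n x = e n (x n) := rfl

theorem J_apply (n : ℕ) (f : CK) : J n f = lp.single 2 n (j n f) := rfl

theorem ev_J (n : ℕ) (f : CK) : ev n (J n f) = f := by
  rw [ev_apply, J_apply, lp.single_apply_self, e_j]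

theorem J_le (n : ℕ) {g : CK} (hg : g ∈ Z) : ‖J n g‖ ≤ ‖g‖ := by
  rw [J_apply, lp.norm_single (by norm_num), e_inj n (x := j n g) (y := mkG n (0, ⟨g, hg⟩))
    (by simp [e_j, e_mk])]
  simpa using mk_le n (0, ⟨g, hg⟩)

theorem domJ (M : Set (StrongDual ℝ XX)) {C : ℝ} (hC : ∀ μ ∈ M, ‖μ‖ ≤ C)
    (hM : ∀ x : ℕ → XX, (∀ φ : StrongDual ℝ XX, Tendsto (fun k => φ (x k)) atTop (𝓝 0)) →
      ∀ η, 0 < η → ∀ᶠ k in atTop, ∀ μ ∈ M, |μ (x k)| ≤ η) (n : ℕ) {ε R : ℝ} (hε : 0 < ε)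
    (hR : 0 < R) : ∃ (P : CK → ℝ) (δ : ℝ), Quad P ∧ 0 < δ ∧
      ∀ f, ‖f‖ ≤ R → P f ≤ δ → ∀ μ ∈ M, |μ (J n f)| ≤ ε := by
  obtain ⟨P, δ, h1, h2, h3⟩ := dom ((fun μ => μ.comp (J n)) '' M) (C := C * ‖J n‖)
    (forall_mem_image.2 fun μ hμ => (μ.opNorm_comp_le _).trans
      (mul_le_mul_of_nonneg_right (hC μ hμ) (norm_nonneg _)))
    (fun f hf η hη => (hM (fun k => J n (f k)) (fun φ => hf (φ.comp (J n))) η hη).mono
      fun k hk => forall_mem_image.2 hk) hε hR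
  exact ⟨P, δ, h1, h2, fun f a1 a2 μ hμ => h3 f a1 a2 _ ⟨μ, hμ, rfl⟩⟩

theorem rdpp : RDPP XX := by
  intro E _ _ _ T hT
  have hT' : ∀ x : ℕ → XX, (∀ φ : StrongDual ℝ XX, Tendsto (fun k => φ (x k)) atTop (𝓝 0)) →
      ∀ η, 0 < η → ∀ᶠ k in atTop, ‖T (x k)‖ ≤ η := fun x hx η hη => by
    have := hT x 0 (by simpa using hx)
    rw [map_zero] at this
    exact (Metric.tendsto_nhds.1 this η hη).mono fun k hk => (by simpa using hk : _ < _).le
  refine wc_of_quad T fun ε hε => ?_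
  obtain ⟨N, hN⟩ : ∃ N, ∀ x : XX, ‖x‖ ≤ 1 → (∀ n < N, x n = 0) → ‖T x‖ ≤ ε / 2 := by
    by_contra hc
    push Not at hc
    choose x h1 h2 h3 using hc
    obtain ⟨k, hk⟩ := (hT' x (fun φ => tail_null φ x h1 h2) _ (half_pos hε)).exists
    exact absurd hk (not_le.2 (h3 k))
  choose P δ h1 h2 h3 using fun n => domJ ((fun φ : StrongDual ℝ E => φ.comp T) '' {φ | ‖φ‖ ≤ 1})
    (C := ‖T‖) (forall_mem_image.2 fun φ hφ => (φ.opNorm_comp_le _).trans
      (mul_le_of_le_one_left (norm_nonneg _) hφ))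
    (fun x hx η hη => (hT' x hx η hη).mono fun k hk => forall_mem_image.2 fun φ hφ =>
      (φ.le_of_opNorm_le_of_le hφ hk).trans (one_mul _).le) n
    (show 0 < ε / 2 / (N + 1) by positivity) (show 0 < ‖ev n‖ + 1 by positivity)
  obtain ⟨d, h4, h5⟩ := (((eventually_all_finset (Finset.range N)).2 fun n _ =>
    nhdsWithin_le_nhds (ge_mem_nhds (h2 n))).and (self_mem_nhdsWithin (s := Ioi (0 : ℝ)))).exists
  refine ⟨_, d, Quad.sum (Finset.range N) fun n => (h1 n).comp (ev n), h5, fun x hx hP => ?_⟩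
  have h6 : hd N x = ∑ n ∈ Finset.range N, J n (ev n x) := Finset.sum_congr rfl fun n _ => by
    rw [J_apply, e_inj n (e_j n (ev n x))]; rfl
  have h7 := hN (x - hd N x) ((lp.norm_mono (by norm_num) fun n => by
    rw [lp.coeFn_sub, Pi.sub_apply, hd_apply]; split_ifs <;> simp).trans hx) fun n hn => by
      rw [lp.coeFn_sub, Pi.sub_apply, hd_apply, if_pos hn, sub_self]
  have h8 : ‖T (hd N x)‖ ≤ N * (ε / 2 / (N + 1)) := by
    rw [h6, map_sum]
    refine (norm_sum_le_of_le _ (n := fun _ => ε / 2 / (N + 1)) fun n hn => ?_).trans (by simp)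
    obtain ⟨φ, a1, a2⟩ := exists_dual_vector'' ℝ (T (J n (ev n x)))
    refine le_trans (le_of_eq a2.symm) ((le_abs_self _).trans (h3 n _ ?_ ?_ _ ⟨φ, a1, rfl⟩))
    · linarith [(ev n).unit_le_opNorm x hx]
    · exact ((Finset.single_le_sum (f := fun n => P n (ev n x)) (fun n _ => (h1 n).nonneg _) hn).trans
        hP).trans (h4 n hn)
  have h9 : N * (ε / 2 / (N + 1)) ≤ ε / 2 := by
    rw [mul_div_assoc', div_le_iff₀ (by positivity)]; nlinarith
  rw [map_sub] at h7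
  linarith [norm_sub_norm_le (T x) (T (hd N x))]

noncomputable def dl (n : ℕ) (σ : K) : StrongDual ℝ XX := (ContinuousMap.evalCLM ℝ σ).comp (ev n)

theorem dl_le (n : ℕ) (σ : K) : ‖dl n σ‖ ≤ ‖ev n‖ :=
  ContinuousLinearMap.opNorm_le_bound _ (norm_nonneg (ev n)) fun x =>
    ((ev n x).norm_coe_le_norm σ).trans ((ev n).le_opNorm x)

theorem chim_le (n : ℕ) : chim (range (dl n)) ≤ ENNReal.ofReal (16 * al n) := by
  refine iSup₂_le fun L hL => ?_
  obtain ⟨N, hN⟩ := osc (L := ev n '' L) (β := 8 * al n) (fun U g => by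
    choose x h1 h2 using fun i => (g i).2
    obtain ⟨y, hy⟩ := weak_lim hL.2 U fun i => ⟨x i, h1 i⟩
    exact ⟨ev n y, fun σ => by simp only [← h2]; exact hy (dl n σ)⟩) (by linarith [al_pos n]) (by
      rintro _ ⟨x, hx, rfl⟩ N ρ σ τ h
      obtain ⟨p, h1, h2⟩ := mk_lt n (x n)
      have h3 : ∀ σ, |al n * p.1 σ| ≤ al n * 2 := fun σ => by
        rw [abs_mul, abs_of_pos (al_pos n)]
        refine mul_le_mul_of_nonneg_left ((p.1.norm_coe_le_norm σ).trans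
          ((norm_fst_le p).trans ?_)) (al_pos n).le
        linarith [lp.norm_apply_le_norm (by norm_num) x n, mem_closedBall_zero_iff.1 (hL.1 hx)]
      have h4 := p.2.2 N ρ σ τ h
      simp only [ev_apply, ← h1, e_mk, ContinuousMap.add_apply, ContinuousMap.smul_apply,
        smul_eq_mul, abs_le] at h3 ⊢
      constructor <;> linarith [h3 σ, h3 τ, h3 (spl N ρ σ), h3 (spl N ρ τ)])
  refine iInf₂_le_of_le (range fun s : Fin N → Bool => dl n fun k => if h : k < N then s ⟨k, h⟩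
    else true) ⟨by rintro _ ⟨s, rfl⟩; exact ⟨_, rfl⟩, finite_range _⟩ (iSup₂_le ?_)
  rintro _ ⟨σ, rfl⟩
  refine iInf₂_le_of_le _ ⟨fun k => σ k, rfl⟩ (iSup₂_le fun x hx => ?_)
  rw [edist_dist]
  refine ENNReal.ofReal_le_ofReal ((hN _ ⟨x, hx, rfl⟩ σ _ fun k hk => by simp [hk]).trans ?_)
  linarith

theorem omegam_ge (n : ℕ) : 1 ≤ omegam (range (dl n)) := by
  refine le_iInf₂ fun H hH => not_lt.1 fun hc => ?_
  obtain ⟨s, hs, h1, h2⟩ := ENNReal.lt_iff_exists_real_btwn.1 hc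
  rw [ENNReal.ofReal_lt_one] at h2
  obtain ⟨P, δ, a1, a2, a3⟩ := domJ {μ ∈ H | ‖μ‖ ≤ ‖ev n‖ + 1} (fun μ hμ => hμ.2)
    (fun x hx η hη => (mackey_L hH x hx hη).mono fun k hk μ hμ => hk μ hμ.1) n
    (half_pos (sub_pos.2 h2)) one_pos
  obtain ⟨m, θ, hm, a4⟩ := a1.signs rad rad_le a2
  obtain ⟨μ, hμ, h3⟩ := Metric.infEDist_lt_iff.1 ((le_iSup₂ (f := fun a (_ : a ∈ range (dl n)) =>
    Metric.infEDist a H) _ ⟨θ, rfl⟩).trans_lt h1)
  rw [edist_lt_ofReal, dist_eq_norm] at h3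
  have h0 : (0 : ℝ) < m := Nat.cast_pos.2 hm
  set f := (m : ℝ)⁻¹ • ∑ k ∈ Finset.range m, sg (θ k) • rad k with hf
  have b1 : ‖f‖ ≤ 1 := by
    rw [hf, norm_smul, Real.norm_of_nonneg (inv_pos.2 h0).le, inv_mul_le_iff₀ h0]
    refine (norm_sum_le_of_le _ (n := fun _ => 1) fun k _ => ?_).trans (by simp)
    rw [norm_smul, Real.norm_eq_abs, abs_sg, one_mul]; exact rad_le k
  have b2 : f ∈ Z := Z.smul_mem _ (Z.sum_mem fun k _ => Z.smul_mem _ (rad_mem k))
  have b3 : dl n θ (J n f) = 1 := by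
    change ev n (J n f) θ = 1
    have : ∀ b, sg b * sg b = 1 := fun b => by cases b <;> simp [sg]
    simp [ev_J, hf, rad, this, h0.ne']
  have b4 := a3 f b1 a4 μ ⟨hμ, by
    linarith [norm_sub_norm_le μ (dl n θ), norm_sub_rev μ (dl n θ), dl_le n θ]⟩
  have b5 := (dl n θ - μ).unit_le_opNorm _ ((J_le n b2).trans b1)
  rw [ContinuousLinearMap.sub_apply, b3, Real.norm_eq_abs] at b5
  linarith [le_abs_self (μ (J n f)), le_abs_self (1 - μ (J n f))]

theorem main (n : ℕ) : ∃ A : Set (StrongDual ℝ XX), A.Nonempty ∧ Bornology.IsBounded A ∧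
    n * chim A < omegam A := by
  refine ⟨range (dl n), range_nonempty _, isBounded_iff_forall_norm_le.2
    ⟨_, forall_mem_range.2 (dl_le n)⟩, lt_of_lt_of_le (lt_of_le_of_lt
      (mul_le_mul_right (chim_le n) _) ?_) (omegam_ge n)⟩
  rw [← ENNReal.ofReal_natCast, ← ENNReal.ofReal_mul n.cast_nonneg, ENNReal.ofReal_lt_one, al]
  field_simp
  linarith

end Pool.Agent.H.MP_997199_an
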